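import Pool.Agent.H39.AC.Dy

/-!
# [H39 AC Bnd] THEOREM AC: bounded gaps between the visits near `f c` (think 2052 (4))

`gap`. PROOF. `Lev` for `κ`: `u`, `s`. `x n = f^[n] (f b) ∈ P`, `c ∈ Om f (x n)` for all `n` (`om_f`). CASE B: there is `k` with `Ent f E u p k` for all `p ∈ P`, `u p = 1`. Let `j` be a hitting time of `f b` (`hit_fr`): `u (x (j + 1)) = 1`. If `u (x i) = 1` then `Ent f E u (x i) k`, so `u (x (i + k + 1)) = 1`. So `u (x (j + 1 + l (k + 1))) = 1` for all `l`,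
and for every `n ≥ j + 1` there is `m ≤ k + 1` with `u (x (n + m)) = 1`, `x (n + m) ∈ ball (f c) κ`. `T = k + 1`. OTHERWISE: `T` from `pst` for `s`, `R`. For every `n` let `N` be the entrance time of `x n` (`ent_ex`): the first alternative of `Lev` is impossible, so `m`, `O ∋ x n`, `O₁ ⊆ ball (f c) κ`, `m ≤ T` (`pst`), `f^[m] (x n) ∈ O₁` (`PQ.mp`).
`lim_vis`. PROOF. Otherwise `f^[m] y ∉ closedBall v κ` for all `m ≤ T`; the set of the `z ∈ P` with this property is relatively open in `P` (`it_cont`, finitely many `m`), contains `y`, so contains `f^[n] x` for infinitely many `n` (`y ∈ Om f x`): contradiction.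
`rec_c`. PROOF. `y ∈ closure (Orb f (f b))`: `y` is in the orbit of `f b`: then `c ∈ Om f b = Om f y ⊆ closure (Orb f y)` (`om_f` iterated, `om_sub`). Or `y ∈ Om f (f b)` (`cl_orb`): by `gap`, `lim_vis` the orbit of `y` visits `closedBall (f c) κ` for every `κ > 0`, so `f c ∈ closure (Orb f y)`, and `c ∈ Om f (f c) ⊆ closure (Orb f (f c)) ⊆ closure (Orb f y)` (`orb_mono`).
-/

set_option autoImplicit false

open Filter Topology Metric Set MeasureTheory

namespace Pool.Agent.H39.AC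

open Pool.Agent.H56.TH Pool.Agent.H81.RW
open Pool.Agent.H81.AC (PQ Lev Stay)

variable {f : ℂ → ℂ} {U P Cr E : Set ℂ} {ρ : ℂ → ENNReal} {c : ℂ} {R : ℕ} {L : ℝ}

/-- all points of an orbit have the same limit set -/
theorem om_it (f : ℂ → ℂ) (x : ℂ) (n : ℕ) : Om f (f^[n] x) = Om f x := by
  induction n with
  | zero => rfl
  | succ n ih =>
    rw [Function.iterate_succ_apply', om_f]
    exact ih

theorem gap (h : DY f U P Cr E ρ c R L) {b : ℂ} (hb : b ∈ Cr) (hc : c ∈ Om f b) {κ : ℝ} (hκ : 0 < κ) :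
    ∃ T : ℕ, ∀ᶠ n : ℕ in atTop, ∃ m ≤ T, f^[m] (f^[n] (f b)) ∈ ball (f c) κ := by
  obtain ⟨u, s, hs, hu, hu1, husm, hL⟩ := h.lev κ hκ
  have hfb : f b ∈ P := h.Pf _ (h.CP hb)
  have hxP : ∀ n, f^[n] (f b) ∈ P := fun n => it_P h hfb n
  have hxc : ∀ n, c ∈ Om f (f^[n] (f b)) := by
    intro n
    rw [om_it, om_f]
    exact hc
  have hball : ∀ y, u y = 1 → y ∈ ball (f c) κ := by
    intro y hy
    rw [mem_ball, dist_eq_norm]
    exact husm y (by rw [hy]; exact one_pos)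
  by_cases hB : ∃ k, ∀ p ∈ P, u p = 1 → Ent f E u p k
  · obtain ⟨k, hk⟩ := hB
    obtain ⟨j, hj⟩ := (hit_fr h hu hu1 hfb (hxc 0)).exists
    have hj1 : u (f^[j + 1] (f b)) = 1 := hj.2
    have hl : ∀ l : ℕ, u (f^[j + 1 + l * (k + 1)] (f b)) = 1 := by
      intro l
      induction l with
      | zero => simpa using hj1
      | succ l ih =>
        have h1 := (hk _ (hxP _) ih).1.2
        rw [← Function.iterate_add_apply] at h1
        rw [show j + 1 + (l + 1) * (k + 1) = k + 1 + (j + 1 + l * (k + 1)) by ring]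
        exact h1
    refine ⟨k + 1, eventually_atTop.2 ⟨j + 1, fun n hn => ?_⟩⟩
    obtain ⟨d, rfl⟩ := Nat.exists_eq_add_of_le hn
    have h1 := Nat.div_add_mod d (k + 1)
    have h2 : d % (k + 1) < k + 1 := Nat.mod_lt d (by omega)
    refine ⟨k + 1 - d % (k + 1), Nat.sub_le _ _, ?_⟩
    rw [← Function.iterate_add_apply]
    apply hball
    have h3 : k + 1 - d % (k + 1) + (j + 1 + d) = j + 1 + (d / (k + 1) + 1) * (k + 1) := by
      have h4 : (d / (k + 1) + 1) * (k + 1) = (k + 1) * (d / (k + 1)) + (k + 1) := by ring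
      rw [h4]
      omega
    rw [h3]
    exact hl _
  · obtain ⟨T, hT⟩ := h.pst s R hs
    refine ⟨T, Eventually.of_forall fun n => ?_⟩
    obtain ⟨N, hN⟩ := ent_ex h hu hu1 (hxP n) (hxc n)
    rcases hL _ (hxP n) N hN with ⟨k, -, hk⟩ | ⟨w, m, O, O₁, -, -, -, -, -, -, hPQ, hxO, -, hO₁, hfr⟩
    · exact absurd ⟨k, hk⟩ hB
    · exact ⟨m, hT _ (hxP n) m O O₁ hPQ hxO hfr, hO₁ (hPQ.mp _ hxO)⟩

theorem lim_vis (h : DY f U P Cr E ρ c R L) {x y v : ℂ} (hx : x ∈ P) (hy : y ∈ Om f x) {κ : ℝ} {T : ℕ}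
    (hT : ∀ᶠ n : ℕ in atTop, ∃ m ≤ T, f^[m] (f^[n] x) ∈ ball v κ) : ∃ m ≤ T, f^[m] y ∈ closedBall v κ := by
  by_contra hcon
  push Not at hcon
  have hyP : y ∈ P := (orb_P h hx).1 (om_sub f x hy)
  have h1 : ∀ᶠ z in 𝓝[P] y, ∀ m ∈ Finset.range (T + 1), f^[m] z ∈ (closedBall v κ)ᶜ := by
    rw [Filter.eventually_all_finset]
    intro m hm
    exact (it_cont h m y hyP).eventually_mem
      (isClosed_closedBall.isOpen_compl.mem_nhds (hcon m (Nat.lt_succ_iff.1 (Finset.mem_range.1 hm))))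
  rw [eventually_nhdsWithin_iff] at h1
  obtain ⟨n, h2, m, hm, h3⟩ := ((hy _ h1).and_eventually hT).exists
  exact h2 (it_P h hx n) m (Finset.mem_range.2 (Nat.lt_succ_iff.2 hm)) (ball_subset_closedBall h3)

theorem rec_c (h : DY f U P Cr E ρ c R L) {b : ℂ} (hb : b ∈ Cr) (hc : c ∈ Om f b) {y : ℂ}
    (hy : y ∈ closure (Orb f (f b))) : c ∈ closure (Orb f y) := by
  have hfb : f b ∈ P := h.Pf _ (h.CP hb)
  have hyP : y ∈ P := (orb_P h hfb).1 hy
  rcases cl_orb f (f b) hy with ⟨n, rfl⟩ | hy1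
  · apply om_sub
    rw [om_it, om_f]
    exact hc
  · have h1 : f c ∈ closure (Orb f y) := by
      rw [Metric.mem_closure_iff]
      intro ε hε
      obtain ⟨T, hT⟩ := gap h hb hc (half_pos hε)
      obtain ⟨m, -, hm⟩ := lim_vis h hfb hy1 hT
      refine ⟨f^[m] y, ⟨m, rfl⟩, ?_⟩
      rw [dist_comm]
      exact (mem_closedBall.1 hm).trans_lt (half_lt_self hε)
    have h2 : c ∈ closure (Orb f (f c)) := by
      apply om_sub
      rw [om_f]
      exact h.om
    exact orb_mono h hyP h1 h2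

end Pool.Agent.H39.AC
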