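import Pool.Agent.H39.AC.Dy

/-!
# [H39 AC Ext] THEOREM AC: the exit argument (think 2052 (5))

`ext_om`. PROOF. `M0 = closure (Orb f (f c))` (closed, invariant, in `P`). Suppose `y ∈ Om f (f b)`, `y ∉ M0`. Choose `δ > 0` with `ball y (3 δ)` disjoint from `M0` and: every `b' ∈ Cr` with a point of `M0` at distance `< 2 δ` is in `M0` (`Cr` is finite, `M0` closed). `κ'` from `sta` for `κ = δ`; `Lev` for `min κ' δ`: `u`, `s`; `T` from `pst` for `s`, `R`.
`x i = f^[i] (f b) ∈ P`; `j` with `u (x j) = 1` (`hit_fr`). There is `ε > 0` such that `z ∈ P`, `p ∈ M0`, `‖z - p‖ < ε` give `‖f^[i] z - f^[i] p‖ < δ` for all `i ≤ T` (`f^[i]` is uniformly continuous on the compact set `P`). As `c ∈ Om f (f b)` there is `n ≥ j` with `x n` at distance `< ε` from a point of `M0` (`c ∈ M0`: `c ∈ Om f (f c)`);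
and there is a time `> n` at which the orbit is in `ball y δ`, so at distance `≥ δ` from all points of `M0`. Let `k` be the first `k ≥ 1` with `‖x (n + k) - p‖ ≥ δ` for all `p ∈ M0`. So `k > T`, and for all `i < k` there is `p ∈ M0` with `‖x (n + i) - p‖ < δ`. `e = n + k`.
`N` the entrance time of `x e` (`ent_ex`). `Lev` at `x e`: FIRST ALTERNATIVE: `k₁ < N`, all `p ∈ P` with `u p = 1` have entrance time `k₁`. From `u (x j) = 1`: `u (x (j + l (k₁ + 1))) = 1` for all `l`, with `Hit` at `j + l (k₁ + 1) + k₁`: there is one hitting time in `[e, e + k₁]`, so `N ≤ k₁`: contradiction (`Ent`: no hits before `N`).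
SECOND: `w`, `m`, `O`, `O₁`. `Stay` at `x n`: for `i < k`, `b' ∈ Cr`, `‖x (n + i) - b'‖ < δ`: `b'` has distance `< 2 δ` from `M0`, so `b' ∈ M0`, `f^[k - i] b' ∈ M0` is at distance `≥ δ` from `x e`, so `w = 0` there (`0 ≤ w`, `0 < w y → ‖y - x e‖ < δ`). So there is `O' ∋ x n` with `PQ (m + k)`, and `pst` gives `m + k ≤ T`: contradiction.
-/

set_option autoImplicit false

open Filter Topology Metric Set MeasureTheory

namespace Pool.Agent.H39.AC

open Pool.Agent.H56.TH Pool.Agent.H81.RW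
open Pool.Agent.H81.AC (PQ Lev Stay)

variable {f : ℂ → ℂ} {U P Cr E : Set ℂ} {ρ : ℂ → ENNReal} {c : ℂ} {R : ℕ} {L : ℝ}

theorem ext_om (h : DY f U P Cr E ρ c R L) {b : ℂ} (hb : b ∈ Cr) (hc : c ∈ Om f b) :
    Om f (f b) ⊆ closure (Orb f (f c)) := by
  sorry

end Pool.Agent.H39.AC
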