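import Pool.Agent.H39.AC.Bnd
import Pool.Agent.H39.AC.Ext
import Pool.Agent.H66.DIM.If

/-!
# [H39 AC Clo] THEOREM AC: the minimal piece (think 2052 (4), (5))

`piece`. PROOF. `M0 = closure (Orb f (f c))`. `B1 = {b ∈ Cr | c ∈ Om f b}` (contains `c`), `M1 = closure {y | ∃ b ∈ B1, ∃ n, f^[n] (f b) = y}`, `F` = the same for `Cr \ B1`. `Cr` is finite: `M1`, `F` are the finite unions of the closures of the orbits, `P = M1 ∪ F` (`den`, `CP`, `Pf`). `c ∉ F`: if `c ∈ closure (Orb f (f b))` then `c ∈ Om f (f b) = Om f b` or `c = f^[n] (f b)`, `c ∈ Om f b` (`cl_orb`, `om_c`, `om_f`).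
`M1 ∩ F = ∅`: `y ∈ M1` gives `c ∈ closure (Orb f y)` (`rec_c`), `y ∈ F` gives `closure (Orb f y) ⊆ F`. `M1 = M0`: `M0 ⊆ M1`. Let `y ∈ M1`, `y ∉ M0`: choose `r > 0` with `closedBall y r` disjoint from `M0` and `F`. For `b ∈ B1`: `Om f (f b) ⊆ M0` (`ext_om`), so `f^[n] (f b) ∉ ball y r` for large `n` (otherwise the orbit has a limit point in `closedBall y r ∩ P`, compact, which is in `Om f (f b)`).
So `P ∩ ball y r` is contained in the closure of a finite set, so finite: contradiction to `nis` (`P ∩ ball y r ⊆ M1`; a finite set has a point with a positive distance from the others). So `M0 = M1` is open and closed in `P`: `off`; `P \ M0 = F` is invariant. `min`: `x ∈ M0`: `c ∈ closure (Orb f x)` (`rec_c` with `b = c`), so `f c` and `M0 = closure (Orb f (f c)) ⊆ closure (Orb f x)`. `c ∈ M0` by `om`.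
-/

set_option autoImplicit false

open Filter Topology Metric Set MeasureTheory

namespace Pool.Agent.H39.AC

open Pool.Agent.H56.TH Pool.Agent.H81.RW
open Pool.Agent.H81.AC (PQ Lev Stay)
open Pool.Agent.H66.DIM (Mn)

variable {f : ℂ → ℂ} {U P Cr E : Set ℂ} {ρ : ℂ → ENNReal} {c : ℂ} {R : ℕ} {L : ℝ}

theorem piece (h : DY f U P Cr E ρ c R L) : Mn f P (closure (Orb f (f c))) ∧ c ∈ closure (Orb f (f c)) ∧
    ∀ x ∈ P, x ∉ closure (Orb f (f c)) → f x ∉ closure (Orb f (f c)) := by
  sorry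

end Pool.Agent.H39.AC
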