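import Pool.Agent.H39.AC.Dy

/-!
# [H39 AC Cmp] THEOREM AC: `c` is recurrent (think 2052 (1))

`cmp_c`. PROOF. `{f c}` is a component of `P`: for `κ > 0` let `u` be as in `hu` (unimodal, `u (f c) = 1`, support in `ball (f c) κ`). `u` is continuous with values `0`, `1` on `P` (`UM.va`), so constant on the connected set `connectedComponentIn P (f c)`, which is therefore contained in `ball (f c) κ`. Let `C = connectedComponentIn P c`. `f '' C` is preconnected, in `P`, contains `f c`: `f z = f c` for all `z ∈ C`.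
`V ∈ 𝓝 c` with `z ∈ V`, `f z = f c` only for `z = c` (`hV`): `C ∩ V = {c}`, so `{c}` is open and closed in `C`: `C = {c}`. By `hE` some point of `C` is in `Om f c`.
`nf_iso`. PROOF. `V = η '' ball 0 r₀` is open (`η` is an injective holomorphic function: `isOpenMap` / `deriv ≠ 0`; see `H80/AJ` or `AnalyticOnNhd.eqOn_zero_or_isOpen`), contains `c = η 0`; `f (η v) = f c + v ^ 2 = f c` gives `v = 0`.
-/

set_option autoImplicit false

open Filter Topology Metric Set MeasureTheory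

namespace Pool.Agent.H39.AC

open Pool.Agent.H56.TH Pool.Agent.H81.RW

theorem cmp_c {f : ℂ → ℂ} {P V : Set ℂ} {c : ℂ} (hfc : ContinuousOn f P) (hPf : ∀ x ∈ P, f x ∈ P) (hcP : c ∈ P)
    (hV : V ∈ 𝓝 c) (hVc : ∀ z ∈ V, f z = f c → z = c)
    (hu : ∀ κ : ℝ, 0 < κ → ∃ u : ℂ → ℝ, UM P u ∧ u (f c) = 1 ∧ ∀ y, 0 < u y → ‖y - f c‖ < κ)
    (hE : ∃ y ∈ connectedComponentIn P c, y ∈ Om f c) : c ∈ Om f c := by
  obtain ⟨y, hyC, hyO⟩ := hE
  have hCpre : IsPreconnected (connectedComponentIn P c) := isPreconnected_connectedComponentIn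
  have hCP : connectedComponentIn P c ⊆ P := connectedComponentIn_subset P c
  have hcC : c ∈ connectedComponentIn P c := mem_connectedComponentIn hcP
  have hfC : ∀ z ∈ connectedComponentIn P c, f z = f c := by
    intro z hz
    by_contra hne
    have hκ : 0 < ‖f z - f c‖ := norm_pos_iff.2 (sub_ne_zero.2 hne)
    obtain ⟨u, hu1, hu2, hu3⟩ := hu _ hκ
    obtain ⟨K, hK⟩ := hu1.lip
    have hD : IsPreconnected ((u ∘ f) '' connectedComponentIn P c) :=
      hCpre.image _ (hK.continuous.comp_continuousOn (hfc.mono hCP))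
    have h1 : (1 : ℝ) ∈ (u ∘ f) '' connectedComponentIn P c := ⟨c, hcC, hu2⟩
    have h0 : (0 : ℝ) ∈ (u ∘ f) '' connectedComponentIn P c := by
      refine ⟨z, hz, ?_⟩
      show u (f z) = 0
      by_contra h2
      exact lt_irrefl _ (hu3 (f z) (lt_of_le_of_ne (hu1.lo _) (Ne.symm h2)))
    have h2 : (1 / 2 : ℝ) ∈ (u ∘ f) '' connectedComponentIn P c :=
      hD.ordConnected.out h0 h1 ⟨by norm_num, by norm_num⟩
    obtain ⟨x, hx, hx2⟩ := h2
    have hx3 : u (f x) = 1 / 2 := hx2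
    rcases hu1.va (f x) (hPf x (hCP hx)) with h3 | h3
    · rw [h3] at hx3; norm_num at hx3
    · rw [h3] at hx3; norm_num at hx3
  have hyc : y = c := by
    by_contra hne
    have h1 := hCpre (interior V) ({c}ᶜ) isOpen_interior isClosed_singleton.isOpen_compl (by
      intro z hz
      by_cases hzc : z = c
      · left
        rw [hzc]
        exact mem_interior_iff_mem_nhds.2 hV
      · right
        exact hzc) ⟨c, hcC, mem_interior_iff_mem_nhds.2 hV⟩ ⟨y, hyC, hne⟩
    obtain ⟨z, hz, hz1, hz2⟩ := h1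
    exact hz2 (hVc z (interior_subset hz1) (hfC z hz))
  rw [← hyc] at hyO ⊢
  exact hyO

theorem nf_iso {f η : ℂ → ℂ} {c : ℂ} {r₀ : ℝ} (hr : 0 < r₀) (hd : DifferentiableOn ℂ η (ball 0 r₀))
    (hi : InjOn η (ball 0 r₀)) (h0 : η 0 = c) (hf : ∀ v ∈ ball (0 : ℂ) r₀, f (η v) = f c + v ^ 2) :
    η '' ball 0 r₀ ∈ 𝓝 c ∧ ∀ z ∈ η '' ball 0 r₀, f z = f c → z = c := by
  have hm0 : (0 : ℂ) ∈ ball (0 : ℂ) r₀ := mem_ball_self hr
  constructor
  · have ha : AnalyticOnNhd ℂ η (ball 0 r₀) := hd.analyticOnNhd isOpen_ball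
    rcases ha.is_constant_or_isOpen (convex_ball 0 r₀).isPreconnected with ⟨w, hw⟩ | ho
    · exfalso
      have h1 : ((r₀ / 2 : ℝ) : ℂ) ∈ ball (0 : ℂ) r₀ := by
        rw [mem_ball_zero_iff, Complex.norm_real, Real.norm_of_nonneg (by positivity)]
        linarith
      have h2 := hi hm0 h1 (by rw [hw _ hm0, hw _ h1])
      have h3 : (r₀ / 2 : ℝ) = 0 := by
        have := h2.symm
        exact_mod_cast this
      linarith
    · exact (ho _ subset_rfl isOpen_ball).mem_nhds ⟨0, hm0, h0⟩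
  · rintro z ⟨v, hv, rfl⟩ hz
    rw [hf v hv] at hz
    have hv0 : v = 0 := by
      have h1 : v ^ 2 = 0 := by linear_combination hz
      exact pow_eq_zero_iff (two_ne_zero) |>.1 h1
    rw [hv0, h0]

end Pool.Agent.H39.AC
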