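import Pool.Agent.H39.AC.Pst
import Pool.Agent.H81.AC.Defs

/-!
# THEOREM AC (MP_8f2e1c, think 2046, 2052): limit sets

`Om f x`: the limit set of the orbit of `x`. (The topological dynamics is in `H93/AC/Top`.)
-/

set_option autoImplicit false

open Filter Topology Metric Set

namespace Pool.Agent.H39.AC

/-- the limit set of the orbit of `x` -/
def Om (f : ℂ → ℂ) (x : ℂ) : Set ℂ := {y | ∀ V ∈ 𝓝 y, ∃ᶠ n : ℕ in atTop, f^[n] x ∈ V}

end Pool.Agent.H39.AC
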