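import Pool.Agent.H3.UP.GUE

/-!
# THEOREM AC (MP_8f2e1c, think 2046, 2052): pull backs with few non-injective times are short

`PST`: the property (*) of think 2052. `pst`: it follows from the persistent recurrence (part (b)) in a chart `e`. PROOF. The components of `thickening ρ P` which meet `P` are
finitely many open sets `E`, whose frontiers do not meet `P`; the bound `N` of part (b) for `e '' E`. Let `O` be as in `PST`, `f^[m] x ∈ E`. The frontier of `f^[k] '' O` is contained in the image of the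
frontier of `O`, so the component of `e '' E` along the orbit of `x` is in `e '' (f^[k] '' O)` (`nest`). If it contains a critical point then `f` is not injective on `f^[k] '' O`.
-/

set_option autoImplicit false

open Filter Topology Metric Set

namespace Pool.Agent.H39.AC

open Pool.Agent.H32.BT (IsCrit)
open Pool.Agent.H44.RC (CC cc_open cc_mem cc_sub cc_pre)
open Pool.Agent.H3.UP (CE ce_fin)

/-- pull backs with a bounded number of non-injective times are short -/
def PST (f : ℂ → ℂ) (U P : Set ℂ) : Prop :=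
  ∀ ρ : ℝ, 0 < ρ → ∀ R : ℕ, ∃ T : ℕ, ∀ x ∈ P, ∀ (m : ℕ) (O : Set ℂ), IsOpen O → Bornology.IsBounded O →
    (∀ y ∈ closure O, ∀ j < m, f^[j] y ∈ U) → x ∈ O → (∀ y ∈ frontier O, ∀ p ∈ P, ρ ≤ ‖f^[m] y - p‖) →
    {i | i < m ∧ ¬ InjOn f (f^[i] '' O)}.ncard ≤ R → m ≤ T

theorem thk_fin {P : Set ℂ} (hP : IsCompact P) {ρ : ℝ} (hρ : 0 < ρ) :
    ∃ t : Finset ℂ, (∀ y ∈ t, y ∈ P) ∧ ∀ x ∈ P, ∃ y ∈ t, x ∈ connectedComponentIn (thickening ρ P) y := by
  obtain ⟨t, ht, hc⟩ := hP.elim_nhds_subcover (fun y => connectedComponentIn (thickening ρ P) y) (fun y hy =>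
    isOpen_thickening.connectedComponentIn.mem_nhds (mem_connectedComponentIn (self_subset_thickening hρ P hy)))
  refine ⟨t, ht, fun x hx => ?_⟩
  obtain ⟨y, hy, h⟩ := mem_iUnion₂.1 (hc hx)
  exact ⟨y, hy, h⟩

private theorem comp_frontier {O : Set ℂ} (hO : IsOpen O) (z : ℂ) :
    frontier (connectedComponentIn O z) ⊆ frontier O := by
  intro w hw
  have hC : IsOpen (connectedComponentIn O z) := hO.connectedComponentIn
  rw [hC.frontier_eq] at hw
  rw [hO.frontier_eq]
  refine ⟨closure_mono (connectedComponentIn_subset _ _) hw.1, fun hwO => ?_⟩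
  have h1 : connectedComponentIn O w ∈ 𝓝 w := hO.connectedComponentIn.mem_nhds (mem_connectedComponentIn hwO)
  obtain ⟨a, ha, ha'⟩ := mem_closure_iff_nhds.1 hw.1 _ h1
  have h2 : connectedComponentIn O z = connectedComponentIn O w :=
    (connectedComponentIn_eq ha').trans (connectedComponentIn_eq ha).symm
  rw [h2] at hw
  exact hw.2 (mem_connectedComponentIn hwO)

variable {F : OnePoint ℂ → OnePoint ℂ} {e : ℂ → OnePoint ℂ} {f : ℂ → ℂ} {U P : Set ℂ}

private theorem itc (hF : ∀ z ∈ U, F (e z) = e (f z)) {y : ℂ} {n : ℕ} (h : ∀ j < n, f^[j] y ∈ U) :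
    F^[n] (e y) = e (f^[n] y) := by
  induction n with
  | zero => rfl
  | succ n ih =>
    rw [Function.iterate_succ_apply', Function.iterate_succ_apply', ih (fun j hj => h j (by omega)),
      hF _ (h n (by omega))]

private theorem itcont (hfc : ContinuousOn f U) {A : Set ℂ} {m : ℕ} (hA : ∀ y ∈ A, ∀ j < m, f^[j] y ∈ U) :
    ∀ k ≤ m, ContinuousOn (f^[k]) A := by
  intro k
  induction k with
  | zero => intro _; exact continuousOn_id
  | succ k ih =>
    intro hk
    rw [Function.iterate_succ']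
    exact hfc.comp (ih (by omega)) (fun y hy => hA y hy k (by omega))

private theorem itopen (hom : ∀ O ⊆ U, IsOpen O → IsOpen (f '' O)) {O : Set ℂ} (hO : IsOpen O) {m : ℕ}
    (hA : ∀ y ∈ O, ∀ j < m, f^[j] y ∈ U) : ∀ k ≤ m, IsOpen (f^[k] '' O) := by
  intro k
  induction k with
  | zero => intro _; simpa using hO
  | succ k ih =>
    intro hk
    rw [Function.iterate_succ', image_comp]
    refine hom _ ?_ (ih (by omega))
    rintro _ ⟨y, hy, rfl⟩
    exact hA y hy k (by omega)

private theorem nest (he : IsOpenEmbedding e) (hfc : ContinuousOn f U) (hom : ∀ O ⊆ U, IsOpen O → IsOpen (f '' O))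
    (hF : ∀ z ∈ U, F (e z) = e (f z)) {ρ : ℝ} {x : ℂ} {m : ℕ} {O : Set ℂ} (hO : IsOpen O)
    (hOb : Bornology.IsBounded O) (hN : ∀ y ∈ closure O, ∀ j < m, f^[j] y ∈ U) (hx : x ∈ O)
    (hfr : ∀ y ∈ frontier O, ∀ p ∈ P, ρ ≤ ‖f^[m] y - p‖) {E : Set ℂ} (hE : E ⊆ thickening ρ P) {k : ℕ} (hk : k < m)
    (hxE : f^[m] x ∈ E) : CC F (m - k) (e '' E) (F^[k] (e x)) ⊆ e '' (f^[k] '' O) := by
  have hSo : IsOpen (e '' (f^[k] '' O)) :=
    he.isOpenMap _ (itopen hom hO (fun y hy => hN y (subset_closure hy)) k hk.le)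
  have hKc : IsCompact (e '' (f^[k] '' closure O)) :=
    (hOb.isCompact_closure.image_of_continuousOn (itcont hfc hN k hk.le)).image he.continuous
  have hcl : closure (e '' (f^[k] '' O)) ⊆ e '' (f^[k] '' closure O) :=
    closure_minimal (image_mono (image_mono subset_closure)) hKc.isClosed
  have hxU : ∀ j < m, f^[j] x ∈ U := hN x (subset_closure hx)
  refine IsPreconnected.subset_left_of_subset_union (u := e '' (f^[k] '' O)) (v := (closure (e '' (f^[k] '' O)))ᶜ) hSo
    isClosed_closure.isOpen_compl (disjoint_compl_right_iff_subset.2 subset_closure) ?_ ?_ (cc_pre _ _ _)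
  · intro y hy
    by_cases h1 : y ∈ closure (e '' (f^[k] '' O))
    · left
      obtain ⟨_, ⟨y', hy', rfl⟩, rfl⟩ := hcl h1
      by_cases h2 : y' ∈ O
      · exact mem_image_of_mem _ (mem_image_of_mem _ h2)
      · exfalso
        have h3 : y' ∈ frontier O := by
          rw [hO.frontier_eq]
          exact ⟨hy', h2⟩
        have h4 : F^[m - k] (e (f^[k] y')) ∈ e '' E := cc_sub hy
        rw [itc hF (n := m - k) (fun j hj => by
          rw [← Function.iterate_add_apply]
          exact hN y' hy' _ (by omega)), ← Function.iterate_add_apply, Nat.sub_add_cancel hk.le] at h4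
        obtain ⟨w, hw, hwe⟩ := h4
        rw [he.injective hwe] at hw
        obtain ⟨p, hp, hd⟩ := mem_thickening_iff.1 (hE hw)
        rw [dist_eq_norm] at hd
        exact absurd (hfr y' h3 p hp) (not_le.2 hd)
    · exact Or.inr h1
  · have h5 : F^[k] (e x) = e (f^[k] x) := itc hF (fun j hj => hxU j (by omega))
    refine ⟨F^[k] (e x), cc_mem ?_, ?_⟩
    · rw [← Function.iterate_add_apply, Nat.sub_add_cancel hk.le, itc hF hxU]
      exact mem_image_of_mem _ hxE
    · rw [h5]
      exact mem_image_of_mem _ (mem_image_of_mem _ hx)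

theorem pst (he : IsOpenEmbedding e) (hfc : ContinuousOn f U) (hom : ∀ O ⊆ U, IsOpen O → IsOpen (f '' O))
    (hF : ∀ z ∈ U, F (e z) = e (f z)) (hP : IsCompact P) (hPf : ∀ z ∈ P, f z ∈ P)
    (hB : ∀ E : Set (OnePoint ℂ), IsOpen E → Disjoint (frontier E) (e '' P) → ∀ D : ℕ, ∃ N : ℕ, ∀ n, N ≤ n →
      ∀ x ∈ e '' P, F^[n] x ∈ E → D < (CE F E x n).ncard) : PST f U P := by
  intro ρ hρ R
  obtain ⟨t, htP, ht⟩ := thk_fin hP hρ
  have h1 : ∀ y : ℂ, ∃ N : ℕ, ∀ n, N ≤ n → ∀ x ∈ e '' P, F^[n] x ∈ e '' connectedComponentIn (thickening ρ P) y →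
      R < (CE F (e '' connectedComponentIn (thickening ρ P) y) x n).ncard := by
    intro y
    have hCo : IsOpen (connectedComponentIn (thickening ρ P) y) := isOpen_thickening.connectedComponentIn
    refine hB _ (he.isOpenMap _ hCo) ?_ R
    rw [disjoint_left]
    rintro _ h2 ⟨p, hp, rfl⟩
    have h3 : p ∈ e ⁻¹' frontier (e '' connectedComponentIn (thickening ρ P) y) := h2
    rw [he.isOpenMap.preimage_frontier_eq_frontier_preimage he.continuous, he.injective.preimage_image] at h3
    have h4 := comp_frontier isOpen_thickening y h3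
    rw [isOpen_thickening.frontier_eq] at h4
    exact h4.2 (self_subset_thickening hρ P hp)
  choose N hN using h1
  refine ⟨t.sup N, fun x hx m O hO hOb hOU hxO hfr hct => ?_⟩
  by_contra hcon
  push Not at hcon
  have hxU : ∀ j < m, f^[j] x ∈ U := hOU x (subset_closure hxO)
  have hit : ∀ n : ℕ, f^[n] x ∈ P := by
    intro n
    induction n with
    | zero => exact hx
    | succ n ih => rw [Function.iterate_succ_apply']; exact hPf _ ih
  obtain ⟨y, hy, hxy⟩ := ht _ (hit m)
  have hNm : N y ≤ m := (Finset.le_sup hy).trans hcon.le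
  have h2 := hN y m hNm (e x) (mem_image_of_mem _ hx) (by
    rw [itc hF hxU]
    exact mem_image_of_mem _ hxy)
  have h3 : CE F (e '' connectedComponentIn (thickening ρ P) y) (e x) m ⊆ {i | i < m ∧ ¬ InjOn f (f^[i] '' O)} := by
    rintro k ⟨hk, c, hc, hck⟩
    refine ⟨hk, fun hinj => ?_⟩
    have hck' := nest he hfc hom hF hO hOb hOU hxO hfr (connectedComponentIn_subset _ _) hk hxy hck
    obtain ⟨z, hz, rfl⟩ := hck'
    have hVo : IsOpen (f^[k] '' O) := itopen hom hO (fun w hw => hOU w (subset_closure hw)) k hk.le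
    have hVU : f^[k] '' O ⊆ U := by
      rintro _ ⟨w, hw, rfl⟩
      exact hOU w (subset_closure hw) k hk
    refine hc ⟨e '' (f^[k] '' O), (he.isOpenMap _ hVo).mem_nhds (mem_image_of_mem _ hz), ?_⟩
    rintro _ ⟨a, ha, rfl⟩ _ ⟨b, hb, rfl⟩ hab
    rw [hF a (hVU ha), hF b (hVU hb)] at hab
    rw [hinj ha hb (he.injective hab)]
  have h4 := ncard_le_ncard h3 ((finite_lt_nat m).subset fun i hi => hi.1)
  omega

end Pool.Agent.H39.AC
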