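import Pool.Agent.H66.DIM.If

/-!
# [H39 AC Rgm] THEOREM AC: minimal pieces inherit `Rg` and `Clu`

`rg_m`. PROOF. `M` and `P \ M` are closed (`P` compact), disjoint: `d > 0` with `d ≤ ‖x - y‖` for `x ∈ M`, `y ∈ P \ M` (trivial if `P \ M` is empty). `Rg P`: `A`, `r₁` (we may assume `1 ≤ A`); for `r < min r₁ (d / (2 A))` the point `y ∈ P` has `‖y - x‖ ≤ A r < d`, so `y ∈ M`.
`clu_m`. PROOF. `A' = A ∩ M`.
-/

set_option autoImplicit false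

open Filter Topology Metric Set

namespace Pool.Agent.H39.AC

open Pool.Agent.H66.DIM (Mn Rg Clu)

theorem rg_m {f : ℂ → ℂ} {P M : Set ℂ} (hP : IsCompact P) (hM : Mn f P M) (h : Rg P) : Rg M := by
  obtain ⟨A, r₁, hr₁, hA⟩ := h
  have hMc : IsCompact M := hP.of_isClosed_subset hM.cl hM.sub
  obtain ⟨d, hd, hdM⟩ : ∃ d : ℝ, 0 < d ∧ ∀ x ∈ M, ∀ y ∈ P, y ∉ M → d ≤ ‖y - x‖ := by
    obtain ⟨d, hd, h1⟩ := hMc.exists_thickening_subset_open (isOpen_compl_iff.2 hM.off) (by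
      intro x hx hx2
      exact hx2.2 hx)
    refine ⟨d, hd, fun x hx y hy hyM => ?_⟩
    by_contra hlt
    push Not at hlt
    have h2 : y ∈ thickening d M := mem_thickening_iff.2 ⟨x, hx, by rw [dist_eq_norm]; exact hlt⟩
    exact h1 h2 ⟨hy, hyM⟩
  obtain ⟨A', hA'⟩ : ∃ A' : ℝ, A' = max A 1 := ⟨_, rfl⟩
  have hA'1 : 1 ≤ A' := by rw [hA']; exact le_max_right _ _
  have hAA : A ≤ A' := by rw [hA']; exact le_max_left _ _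
  have hA'0 : 0 < A' := by linarith
  refine ⟨A', min r₁ (d / (2 * A')), lt_min hr₁ (by positivity), fun x hx r hr hrr => ?_⟩
  have hr1 : r < r₁ := hrr.trans_le (min_le_left _ _)
  have hr2 : r < d / (2 * A') := hrr.trans_le (min_le_right _ _)
  obtain ⟨y, hy, h1, h2⟩ := hA x (hM.sub hx) r hr hr1
  have h3 : ‖y - x‖ ≤ A' * r := h2.trans (mul_le_mul_of_nonneg_right hAA hr.le)
  refine ⟨y, ?_, h1, h3⟩
  by_contra hyM
  have h4 := hdM x hx y hy hyM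
  have h5 : A' * r < A' * (d / (2 * A')) := mul_lt_mul_of_pos_left hr2 hA'0
  have h6 : A' * (d / (2 * A')) = d / 2 := by field_simp
  linarith

theorem clu_m {f : ℂ → ℂ} {P M : Set ℂ} (hM : Mn f P M) {v : ℂ} (hv : v ∈ M)
    (h : ∃ ε : ℝ, 0 < ε ∧ ∀ r₁ : ℝ, 0 < r₁ → ∃ r : ℝ, 0 < r ∧ r < r₁ ∧ ∃ A ⊆ P, v ∈ A ∧
      (∀ x ∈ A, ∀ y ∈ A, ‖x - y‖ ≤ r) ∧ ∀ x ∈ A, ∀ y ∈ P, y ∉ A → ε * r ≤ ‖x - y‖) : Clu M := by
  obtain ⟨ε, hε, h1⟩ := h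
  refine ⟨ε, hε, fun r₁ hr₁ => ?_⟩
  obtain ⟨r, hr, hr1, A, hA, hvA, h2, h3⟩ := h1 r₁ hr₁
  refine ⟨r, hr, hr1, A ∩ M, inter_subset_right, ⟨v, hvA, hv⟩, fun x hx y hy => h2 x hx.1 y hy.1, fun x hx y hy hyA => ?_⟩
  exact h3 x hx.1 y (hM.sub hy) fun hyA' => hyA ⟨hyA', hy⟩

end Pool.Agent.H39.AC
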