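import Pool.Agent.H39.AC.Cmp
import Pool.Agent.H93.AC.Top
import Pool.Agent.H81.AC.Acl
import Pool.Agent.H66.SP.Defs

/-!
# THEOREM AC (MP_8f2e1c, think 2046, 2052): the structure theorem in the plane

`str_of`: `P0` is a closed forward invariant part of `P` with closed complement in `P`, which contains the critical points and is the closure of their orbits (for the Julia sets which are not the sphere `P0 = P`), with levels of all sizes at the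
critical value `f c` (conclusion of `H81/AC/Acl`): the closure `M` of the orbit of `f c` is a minimal piece of `P`, uniformly perfect, with clusters at arbitrarily small scales (`H93/AC/Top`).
`str`: THE STRUCTURE THEOREM: if `P0` has clusters at arbitrarily small scales then there is such a piece `M` which contains a critical point and all critical points whose orbits meet `M`. `pst_pq`: persistence for `PQ`.
-/

set_option autoImplicit false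

open Filter Topology Metric Set MeasureTheory

namespace Pool.Agent.H39.AC

open Pool.Agent.H56.TH Pool.Agent.H81.RW
open Pool.Agent.H81.AC (PQ Lev Stay)
open Pool.Agent.H66.DIM (Mn Rg Clu)
open Pool.Agent.H66.SP (PG)

theorem om_iff {f : ℂ → ℂ} {x y : ℂ} : y ∈ Om f x ↔ Pool.Agent.H93.AC.Om f x y := by
  constructor
  · intro h ε hε N
    obtain ⟨n, hn, h1⟩ := frequently_atTop.1 (h (ball y ε) (ball_mem_nhds y hε)) N
    exact ⟨n, hn, by rw [← dist_eq_norm]; exact h1⟩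
  · intro h V hV
    obtain ⟨ε, hε, h1⟩ := Metric.mem_nhds_iff.1 hV
    refine frequently_atTop.2 fun N => ?_
    obtain ⟨n, hn, h2⟩ := h ε hε N
    exact ⟨n, hn, h1 (by rw [mem_ball, dist_eq_norm]; exact h2)⟩

theorem str_of {f : ℂ → ℂ} {U J P P0 Cr : Set ℂ} {δ : ℝ} {η : ℂ → ℂ → ℂ} {r₀ : ℝ} (h : PG f U J P Cr δ η r₀)
    (hsub : P0 ⊆ P) (hcl : IsClosed P0) (hinv : ∀ x ∈ P0, f x ∈ P0) (hoff : IsClosed (P \ P0)) (hCP : Cr ⊆ P0)
    (hden : P0 ⊆ closure {y | ∃ b ∈ Cr, ∃ n : ℕ, f^[n] (f b) = y})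
    (hE : ∀ b ∈ Cr, ∃ y ∈ connectedComponentIn P0 b, y ∈ Om f b) (hRg : Rg P0)
    (hpst : Pool.Agent.H81.AC.PST f U P0 Cr)
    {ρ : ℂ → ENNReal} {c : ℂ} {R : ℕ} {L : ℝ} (hc : c ∈ Cr)
    (hlev : ∀ κ : ℝ, 0 < κ → Lev f U P0 Cr (η c '' ball 0 r₀) ρ (f c) R L κ)
    (hsta : ∀ κ : ℝ, 0 < κ → ∃ κ' : ℝ, 0 < κ' ∧ Stay f U P0 Cr ρ L κ κ')
    (hcc : Pool.Agent.H93.AC.Clv P0 (f c)) :
    ∃ M : Set ℂ, Mn f P0 M ∧ Mn f P M ∧ (M ∩ Cr).Nonempty ∧ (∀ x ∈ P0, x ∉ M → f x ∉ M) ∧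
      (∀ b ∈ Cr, ∀ j : ℕ, f^[j] b ∈ M → b ∈ M) ∧ Rg M ∧ Clu M := by
  have hPJ : P0 ⊆ J := hsub.trans h.PJ
  have hPc : IsCompact P0 := h.Jc.of_isClosed_subset hcl hPJ
  have hPU : P0 ⊆ U := hPJ.trans h.JU
  have hfc : ContinuousOn f P0 := h.fd.continuousOn.mono hPU
  obtain ⟨hηd, hηi, hη0, hηf⟩ := h.nf c hc
  have hiso := nf_iso h.hρ hηd hηi hη0 (fun v hv => (hηf v hv).2)
  have hom : c ∈ Om f c := by
    refine cmp_c hfc hinv (hCP hc) hiso.1 hiso.2 (fun κ hκ => ?_) (hE c hc)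
    obtain ⟨u, s, -, h1, h2, h3, -⟩ := hlev κ hκ
    exact ⟨u, h1, h2, h3⟩
  have hD : Pool.Agent.H93.AC.TD f U P0 Cr (η c '' ball 0 r₀) ρ c R L :=
    ⟨hPc, hinv, hfc, h.Cf, hCP, hc, hiso.1, hden, om_iff.1 hom, hlev, hsta, hpst, hRg⟩
  obtain ⟨M, hM, hcM, hfw, hR, hC⟩ := hD.str' hcc
  refine ⟨M, hM, ⟨hM.cl, hM.ne, hM.sub.trans hsub, hM.inv, hM.min, ?_⟩, ⟨c, hcM, hc⟩, hfw, ?_, hR, hC⟩
  · have h1 : P \ M = (P \ P0) ∪ (P0 \ M) := by
      ext x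
      constructor
      · rintro ⟨hx, hxM⟩
        by_cases hx0 : x ∈ P0
        · exact Or.inr ⟨hx0, hxM⟩
        · exact Or.inl ⟨hx, hx0⟩
      · rintro (⟨hx, hx0⟩ | ⟨hx, hxM⟩)
        · exact ⟨hx, fun hxM => hx0 (hM.sub hxM)⟩
        · exact ⟨hsub hx, hxM⟩
    rw [h1]
    exact hoff.union hM.off
  · intro b hb j hj
    by_contra hbM
    have h1 : ∀ n : ℕ, f^[n] b ∈ P0 ∧ f^[n] b ∉ M := by
      intro n
      induction n with
      | zero => exact ⟨hCP hb, hbM⟩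
      | succ n ih =>
        rw [Function.iterate_succ_apply']
        exact ⟨hinv _ ih.1, hfw _ ih.1 ih.2⟩
    exact (h1 j).2 hj

theorem pst_pq {f : ℂ → ℂ} {U P Cr : Set ℂ} (h : PST f U P) : Pool.Agent.H81.AC.PST f U P Cr := by
  intro s R hs
  obtain ⟨T, hT⟩ := h s hs R
  refine ⟨T, fun x hx m O O₁ hO hxO hfr => hT x hx m O hO.op hO.bd hO.Nn hxO (fun y hy p hp => hfr _ (hO.fr y hy) p hp) hO.ct⟩

/-- the structure theorem -/
theorem str {f : ℂ → ℂ} {U J P P0 Cr : Set ℂ} {δ : ℝ} {η : ℂ → ℂ → ℂ} {r₀ : ℝ} (h : PG f U J P Cr δ η r₀)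
    (hsub : P0 ⊆ P) (hcl : IsClosed P0) (hinv : ∀ x ∈ P0, f x ∈ P0) (hoff : IsClosed (P \ P0)) (hCP : Cr ⊆ P0)
    (hCn : Cr.Nonempty) (hden : P0 ⊆ closure {y | ∃ b ∈ Cr, ∃ n : ℕ, f^[n] (f b) = y})
    (hE : ∀ b ∈ Cr, ∃ y ∈ connectedComponentIn P0 b, y ∈ Om f b) (hRg : Rg P0) (hClu : Clu P0) (hpst : PST f U P0) :
    ∃ M : Set ℂ, Mn f P0 M ∧ Mn f P M ∧ (M ∩ Cr).Nonempty ∧ (∀ x ∈ P0, x ∉ M → f x ∉ M) ∧
      (∀ b ∈ Cr, ∀ j : ℕ, f^[j] b ∈ M → b ∈ M) ∧ Rg M ∧ Clu M := by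
  obtain ⟨ρ, c, R, L, hc, h1, h2, h3⟩ := Pool.Agent.H81.AC.acl h hcl hsub hinv hoff hCP hCn hden hRg hClu
  exact str_of h hsub hcl hinv hoff hCP hden hE hRg (pst_pq hpst) hc h1 h2 h3

end Pool.Agent.H39.AC
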